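import Pool.Agent.Run7.h323.CC.Fin
import Pool.Agent.Y167.FromFib

set_option autoImplicit false

/-!
# The weak nef cone conjecture for klt pairs on toric bundles over quotients of complex tori

Let `X = V / Γ` be a quotient of a complex torus by any finite group, of any dimension (the group may
contain reflections), and `X → Z = W / Γ'` a fibration, given by a linear map `π : V → W`. Let `Y → X`
be a toric bundle: the fibre is the smooth complete toric variety with the rays `u i`, and the twists
are given by arbitrary line bundles `c i` on `X`. Suppose that `Y` is projective. Let `(Y, Δ)` be a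
Kawamata log terminal pair with real coefficients, such that `K_Y + Δ` is numerically trivial over `Z`.
The components of `Δ` are arbitrary divisors on `Y`. The theorem says that the faces of the cone
`A^e(Y/Z)` of nef and effective classes form finitely many orbits under `Aut(Y/Z, Δ)`, and that this
cone is the convex hull of the rational nef classes. A contraction `φ` over `Z` defines the face `F_φ`
of the classes in `A^e(Y/Z)` which are trivial on the curves contracted by `φ` (a sum of two nef
classes is trivial on a curve only if both are), and this is a face in the sense of convex geometry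
(`IsFace`). So the faces of birational contractions and of fibre space structures form finitely many
orbits.

The proof: the coefficients of the sections which define the components of `Δ` are sections of line
bundles on `X`. By the integrability condition at the points of the torus invariant strata, for
each direction in the lattice of the fan some exponents are on the negative side. Since `K_Y + Δ` is
numerically trivial and the Chern forms of the coefficients are semidefinite, the Chern forms of the
coefficients and of all line bundles `∏ c_i ^ ⟨q, u_i⟩` vanish in the directions parallel to all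
mirrors of `Γ`, and these line bundles are trivial on a sublattice of finite index. Hence the
automorphisms of `X` over `Z` given by units of a subgroup of finite index lift to `Y`, and by
Liouville's theorem the lifts fix all components of `Δ`. The cone of nef classes is the product of a
rational polyhedral cone, fixed by these automorphisms, and of a cone of semidefinite forms, on which
the units act; for this cone the reduction theory of the starting repository (`Pool.Agent.Y167`) gives
finitely many generators of a covering. Each face contains a class in its relative interior, and this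
class lies in one of finitely many faces of the generating cones up to the group.

The definitions for toric bundles are in `Pool.Agent.Run7.h323.CC.Defs` (`N1Y`, `integral`, `IsSum`,
`nefCone`, `effective`, `effCone`, `IsAmple`, `EffDivY`, `NumTrivialY`, `IsKltY`, `Fixes`),
`Pool.Agent.Run7.h323.CC.Stm` (`NY`, `integralY`, `rationalY`, `nefY`, `effY`, `IsProjective`, `Aff`,
`Elt`, `IsConj`, `IsAut`, `resForm`, `IsPull`, `FiniteFaces`, `HasAll`),
`Pool.Agent.Run7.h323.TQ.Defs` (`IsMax`) and `Pool.Agent.Q47.TB.Defs`
(`IsSmoothFan`, `LinEquiv`, `IsSection`). The others are in `Pool.Agent.W594.SYZ.Defs2`,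
`Pool.Agent.W594.SYZ.TQDefs`, `Pool.Agent.TH735.AQ.Defs`, `Pool.Agent.TH735.AQ.MirDefs`,
`Pool.Agent.Y167.Defs`, `Pool.Agent.Y167.Stm`, `Pool.Agent.Y167.StmFace` and
`Pool.Agent.Y167.ConeDef`.
-/

namespace Pool.Agent.Results.MP_39bf0e_ag.ToricBundles

open Pool.Agent.W594.SYZ2 Pool.Agent.TH735.AQ Q47.TB Run7.h323.CC
open Pool.Agent.Y167 (AffGrp rel_of_emb)
open Pool.Agent.Y167.CC (LinGrp Preserves)

section

variable {V W E : Type*} [NormedAddCommGroup V] [NormedSpace ℂ V] [NormedAddCommGroup W]
  [NormedSpace ℂ W] [NormedAddCommGroup E] [NormedSpace ℂ E] {Γ : AffGrp V} {ι κ : Type*}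
  [Fintype ι] [Fintype κ] {n : ℕ}

/-- The affine transformation `f` of `V` induces an automorphism over `Z = W / Γ'`. -/
def Over (Γ' : AffGrp W) (π : V →ₗ[ℂ] W) (f : Aff V) : Prop :=
  ∃ δ : Elt Γ', ∀ v, π (ap f v) = act δ (π v)

/-- `g` is the pullback on `N^1(Y/Z)` by an automorphism of `Y` over `Z` which is induced by a map
`(v, x) ↦ (f v, φ(v) x)` and maps the components of `Δ` to themselves. -/
def IsPullY (Γ' : AffGrp W) (π : V →ₗ[ℂ] W) {j : E →ₗ[ℂ] V} {u : ι → Fin n → ℤ}
    {c : ι → LineBundle Γ} (Hc : ι → V → V → ℂ) (Δ : EffDivY u c κ)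
    (g : Lin1 u Γ j) : Prop :=
  ∃ f φ, IsAut u c f φ ∧ Over Γ' π f ∧ Fixes Δ f φ ∧ IsPull Hc f g

/-- `𝒢` is a group of linear automorphisms of `N^1(Y/Z)` which preserves the integral classes and the
nef cone, and which contains the pullbacks by all automorphisms of `Y` over `Z` which are induced by
maps `(v, x) ↦ (f v, φ(v) x)` and map the components of `Δ` to themselves. The image of
`Aut(Y/Z, Δ)` has these properties. -/
structure IsAutGroup (Γ' : AffGrp W) (π : V →ₗ[ℂ] W) {j : E →ₗ[ℂ] V} {u : ι → Fin n → ℤ}
    (S : Set (Set ι)) {c : ι → LineBundle Γ} (Hc : ι → V → V → ℂ) (Δ : EffDivY u c κ)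
    (𝒢 : LinGrp (NY u Γ j)) : Prop where
  int : Preserves 𝒢 (integralY u j Γ)
  nef : Preserves 𝒢 (nefY u j S Hc Γ)
  aff : HasAll 𝒢 (IsPullY Γ' π Hc Δ)

end

/-- Let `X = V / Γ` be a torus quotient, `X → Z = W / Γ'` a fibration, and `Y → X` the toric bundle
given by the smooth complete fan with the rays `u i` and the cones `S` and by the line bundles `c i`
on `X` with the Chern forms `Hc i`. Suppose that `Y` is projective. Let `Δ` be an effective divisor
with real coefficients on `Y` such that `K_Y + Δ` is numerically trivial over `Z` and `(Y, Δ)` is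
Kawamata log terminal (it is enough that this holds for the restriction to one fibre of `Y → X`).
Here `E` is the kernel of `π`, embedded by `j`. The faces of the cone `A^e(Y/Z)` of nef effective
classes form finitely many orbits under `𝒢`, and this cone is the convex hull of the rational nef
classes. -/
theorem result {V W E : Type*} [NormedAddCommGroup V] [NormedSpace ℂ V] [FiniteDimensional ℂ V]
    [NormedAddCommGroup W] [NormedSpace ℂ W] [FiniteDimensional ℂ W]
    [NormedAddCommGroup E] [NormedSpace ℂ E] [FiniteDimensional ℂ E]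
    (Γ : AffGrp V) (hΓ : IsTorusQuotient Γ)
    (Γ' : AffGrp W) (π : V →ₗ[ℂ] W) (hπ : IsFibration Γ Γ' π)
    (j : E →ₗ[ℂ] V) (hj : Function.Injective j) (hjr : LinearMap.range j = LinearMap.ker π)
    {ι κ : Type*} [Fintype ι] [Fintype κ] {n : ℕ} (u : ι → Fin n → ℤ) (S : Set (Set ι))
    (hS : IsSmoothFan u S) (c : ι → LineBundle Γ) (Hc : ι → V → V → ℂ)
    (hc : ∀ i, IsChernForm (c i) (Hc i)) (hproj : IsProjective u S Γ Hc)
    (Δ : EffDivY u c κ) (hΔ : NumTrivialY Hc j Δ) (hklt : IsKltY S Δ)
    (𝒢 : LinGrp (NY u Γ j)) (h𝒢 : IsAutGroup Γ' π S Hc Δ 𝒢) :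
    FiniteFaces 𝒢 (nefY u j S Hc Γ ∩ effY u j c) ∧
      nefY u j S Hc Γ ∩ effY u j c = convexHull ℝ (nefY u j S Hc Γ ∩ rationalY u j Γ) := by
  have hP : Pre Γ j := by
    obtain ⟨d, L, H, hL, hA⟩ := hproj
    obtain ⟨σ, hσ, -⟩ := Run7.h323.TQ.exists_max hS.empty_mem
    obtain ⟨β, -, -, h3⟩ := hA σ hσ
    have h4 := chern_tw hL hc 1 β
    have h5 : (fun v w => ((1 : ℕ) : ℂ) * (H v w - ∑ i, ((β i : ℕ) : ℂ) * Hc i v w)) =
        fun v w => H v w - ∑ i, (β i : ℂ) * Hc i v w := by
      funext v w
      rw [Nat.cast_one, one_mul]
    rw [h5] at h4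
    have R := rel_of_emb hj hjr hΓ hπ h4 h3
    exact ⟨R.tq, R.inj, R.stable, R.span⟩
  obtain ⟨σ, hσ, -⟩ := Run7.h323.TQ.exists_max hS.empty_mem
  refine (mainNY hS hP hc hproj hΔ hklt (𝒯 := {σ | Run7.h323.TQ.IsMax S σ}) ⟨σ, hσ⟩
    (fun τ hτ => ⟨τ, hτ, subset_rfl⟩) 𝒢 h𝒢.int h𝒢.nef ?_).2.symm
  rintro g ⟨f, φ, h1, h2, h3, h4⟩
  refine h𝒢.aff g ⟨f, φ, h1, ⟨⟨1, Γ'.one_mem⟩, fun v => ?_⟩, h3, h4⟩
  obtain ⟨e, he⟩ := h2 v
  have h5 : π (j e) = 0 := by
    have h6 : j e ∈ LinearMap.ker π := hjr ▸ LinearMap.mem_range_self j e
    exact h6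
  change π (f v) = π v
  rw [he, map_add, h5, add_zero]

end Pool.Agent.Results.MP_39bf0e_ag.ToricBundles
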