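import Pool.Agent.Results.MP_89a3f8_ag.TerminationOfFlips
import Pool.Agent.Run7.h530.FI.Faces

/-!
# The nef cone conjecture for toroidal covers of products of projective spaces and their images

Let `F i` be a form of degree `d i` in `n i + 1` variables whose zero set in the projective
`n i`-space is a smooth hypersurface, and let `K` be the function field of an abelian cover `Y` of the
product of the projective `n i`-spaces which is branched along the hypersurfaces `F i = 0` of the
factors: `K` is generated by the affine coordinates and by roots `z j`,
`z j ^ (m j) = ∏ i, (F i (x i) / x i 0 ^ (d i)) ^ (a j i)`. Equivalently, `Y` is a quotient of the product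
of the cyclic hypersurfaces `H i`, `w ^ (d i) = F i`, by a group of diagonal automorphisms. Let `X` be a
toroidal modification of `Y`, given by `fan` (the definitions are those of the starting result
`MP_89a3f8_ag.TerminationOfFlips`).

**The varieties `X_0`.** Let `X_0` be a normal projective variety with a generically finite morphism
`X → X_0`, for instance `X_0 = X` or the quotient of `X` by ANY finite group of automorphisms
(permutations of equal factors, automorphisms of the forms, ...). Its function field `K0` is a subfield
of `K` and `K / K0` is finite. On `X_0` there are `ℚ`-Cartier divisors `D 1, ..., D p`; `δ i P` is the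
coefficient of the pull back of `D i` at the prime divisor `P` over `X_0`. We assume that the pull back
of `D i` to the models of `K` is the sum of a toroidal divisor on `X` and of the divisor of a function
`g i`, that the `D i` are independent (if `∑ i, μ i * D i` and its negative are both linearly equivalent
to effective divisors then `μ = 0`), and that some combination with the coefficients `μ0` is ample (for
all `ν` some `k * μ0 + ν`, `k ≥ 1`, is base point free).

If all `n i ≥ 3` and `X_0` is `ℚ`-factorial, then the `D i` can be chosen as a basis of
`N¹(X_0) ⊗ ℚ = Pic(X_0) ⊗ ℚ`, since all divisors on `X` are toroidal up to linear equivalence and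
multiples (Lefschetz; this remark is not used and not proved here). Then the space `ℝ ^ p` of the
combinations of the `D i` is `N¹(X_0) ⊗ ℝ`, and the cones below are the cones of `X_0`.

**Calabi-Yau varieties.** The theorem does not use that `K_X + Δ` is trivial. If `d i = n i + 2` the
`H i` are Calabi-Yau manifolds; for a group `G` of diagonal automorphisms which preserves the volume form
of the product, `Y = (H 1 × ... × H r) / G` has trivial canonical class and canonical singularities,
and its crepant toroidal modifications `X` (the `ℚ`-factorial ones, with terminal singularities, or the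
crepant toroidal resolutions, if they exist) have trivial canonical class. This generalizes the
construction of Borcea and Voisin to products of several factors of any dimensions `n i ≥ 3`. The
quotients `X_0 = X / Γ` by finite groups `Γ`, with the branch divisor `Δ`, are klt Calabi-Yau pairs.

**The nef cone.** Let `𝒮` be a group of automorphisms of `X_0`, for instance `Aut(X_0)` or
`Aut(X_0, Δ)`, given by the automorphisms `φ = f^*` of the function field `K0`, such that the pull backs
of the `D i` are combinations of the `D i` up to linear equivalence and multiples, with bounded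
denominators (`h𝒮`, `hden`; this holds for all automorphisms if the `D i` are a basis of
`Pic(X_0) ⊗ ℚ`, because they act on the group of the classes of line bundles). Then the nef cone is
generated by the classes of finitely many base point free divisors, it is contained in the effective
cone, the convex cone `Nef⁺` generated by the rational nef classes is the effective nef cone
`Nefᵉ = Nef ∩ Eff`, the nef cone has only finitely many faces (in particular there are only finitely many
faces which correspond to contractions), and the action of `𝒮` on `Nef⁺ = Nefᵉ` has a rational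
polyhedral fundamental domain.

**The proof.** The multigraded ring of the sections of the combinations of the toroidal divisors on `X`
is finitely generated (starting tree, `Q57.CX`). The ring of the sections of the combinations of the
`D i` on `X_0` is finitely generated too, since the former ring is integral over it (`fg_desc`). Let
`s b` be finitely many homogeneous generators. A combination `∑ i, μ i * D i` has a section which does
not vanish at the centre of `P` if and only if `μ` is a sum of degrees of generators `s b` which do not
vanish there. So the cones of the combinations without base points at the centres of the `P` in a set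
are intersections of finitely many cones from a finite list of cones generated by integral vectors,
and rational polyhedral (`gcone_inter`, `cone_eq`). They are strictly convex (Gordan), and a Dirichlet
domain (starting tree, `Y167`) is a fundamental domain.
-/

set_option autoImplicit false

open FF MvPolynomial Pool.Agent.W602.GT Run7.h530.FI
open Pool.Agent.Y167 (cone)
open Pool.Agent.Results.MP_89a3f8_ag.TerminationOfFlips (Smooth Admissible InCone IsFan affine
  coefficient)

namespace Pool.Agent.Results.MP_39bf0e_ag.ToroidalCovers

/-- **The nef cone conjecture.** Let `X_0` be the image under a generically finite morphism of a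
toroidal modification `X` of an abelian cover of a product of projective spaces branched along smooth
hypersurfaces of the factors, and let the `D i` be independent `ℚ`-Cartier divisors on `X_0`, some
combination of which is ample, whose pull backs to `X` are toroidal up to linear equivalence. Let `𝒮`
be a group of automorphisms of `X_0` which act on the combinations of the `D i` modulo linear
equivalence and multiples, with bounded denominators. Then
(1) the nef cone is generated by the classes of finitely many base point free divisors;
(2) it is contained in the effective cone;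
(3) the convex cone generated by the rational nef classes is `Nef ∩ Eff`;
(4) the nef cone has only finitely many faces;
(5) the action of `𝒮` on the cone `Nef ∩ Eff` has a rational polyhedral fundamental domain. -/
theorem result (r N R p : ℕ) (n d : Fin r → ℕ) (hr : 1 ≤ r) (hn : ∀ i, 1 ≤ n i)
    (hd : ∀ i, 1 ≤ d i) (hN : N = ∑ i, n i)
    (F : ∀ i, MvPolynomial (Fin (n i + 1)) ℂ) (hF : ∀ i, (F i).IsHomogeneous (d i))
    (hs : ∀ i, Smooth (F i)) (m : Fin R → ℕ) (hm : ∀ j, 1 ≤ m j) (a : Fin R → Fin r → ℕ)
    (hdiv : ∀ j i, m j ∣ a j i * d i)
    (K : Type) [Field K] [Algebra ℂ K] (x : ∀ i, Fin (n i + 1) → K) (hx0 : ∀ i, x i 0 ≠ 0)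
    (hbas : IsTranscendenceBasis ℂ (affine x)) (z : Fin R → K)
    (hz : ∀ j, z j ^ m j = ∏ i, (aeval (x i) (F i) / x i 0 ^ d i) ^ a j i)
    (hgen : IntermediateField.adjoin ℂ (Set.range (affine x) ∪ Set.range z) = ⊤)
    (fan : Finset (Finset (Fin r → ℕ))) (hfan : IsFan m a fan)
    (c : Fin p → (Fin r → ℕ) → ℚ) (hc0 : ∀ i, c i 0 = 0) (β : Fin p → Fin r → ℤ)
    (u : Finset (Fin r → ℕ) → Fin p → Fin r → ℚ)
    (hlin : ∀ σ ∈ fan, ∀ i v, Admissible m a v → InCone σ v → - c i v = ∑ k, u σ i k * v k)
    (K0 : Type) [Field K0] [Algebra ℂ K0] [Algebra K0 K] [IsScalarTower ℂ K0 K]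
    [FiniteDimensional K0 K] (δ : Fin p → Place ℂ K0 → ℚ) (M : ℕ) (hM : 1 ≤ M)
    (hint : ∀ i P, Divisorial N P → ∃ b : ℤ, (M : ℚ) * δ i P = b)
    (g : Fin p → K) (hg : ∀ i, g i ≠ 0)
    (hδ : ∀ (i : Fin p) (Q : Place ℂ K) (P : Place ℂ K0) (e : ℕ), Over Q P e → Divisorial N Q →
      (e : ℚ) * δ i P = coefficient F d x (c i) (β i) Q + Q.ord (g i))
    (hind : ∀ μ : Fin p → ℤ, IsEff N δ μ → IsEff N δ (-μ) → μ = 0)
    (hamp : ∃ μ0 : Fin p → ℤ, ∀ ν : Fin p → ℤ, ∃ k : ℕ, 1 ≤ k ∧
      ∀ P : Place ℂ K0, Divisorial N P → FreeAt N δ (k • μ0 + ν) P)
    (𝒮 : Subgroup (K0 ≃ₐ[ℂ] K0))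
    (h𝒮 : ∀ φ ∈ 𝒮, ∃ T, IsPullBack δ {P | Divisorial N P} φ T) (L : ℕ) (hL : 1 ≤ L)
    (hden : ∀ φ ∈ 𝒮, ∀ T, IsPullBack δ {P | Divisorial N P} φ T → ∀ i j, ∃ b : ℤ,
      (L : ℝ) * T (Pi.single i 1) j = b) :
    (∃ S : Finset (Fin p → ℝ), (∀ w ∈ S, ∃ μ : Fin p → ℤ,
        (∀ P, Divisorial N P → FreeAt N δ μ P) ∧ w = rc μ) ∧ nefCone N δ = cone S) ∧
      nefCone N δ ⊆ effCone N δ ∧ ratHull (nefCone N δ) = nefCone N δ ∩ effCone N δ ∧
      {F | IsFace F (nefCone N δ)}.Finite ∧
      HasFundDomain {T | ∃ φ ∈ 𝒮, IsPullBack δ {P | Divisorial N P} φ T}
        (nefCone N δ ∩ effCone N δ) := by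
  have hfg := Run7.h530.FI.fg_desc hg (fun i Q P e h hQ => hδ i Q P e h hQ) hM hint
    (Pool.Agent.Q57.CX.main_cox (N := N) hr hn hN hd hF hs hx0 hbas hm hdiv hz hgen
      (S := fan) ⟨hfan.adm, hfan.full, hfan.cover⟩ hc0 (u := u) hlin (β := β)
      (δ := fun i P => coefficient F d x (c i) (β i) P) (fun _ _ => rfl))
  obtain ⟨⟨S, hS, hC⟩, hsub, hdom⟩ := conj_nef hfg hind hamp h𝒮 hL hden
  refine ⟨⟨S, hS, hC⟩, hsub, ?_, ?_, hdom⟩
  · rw [Set.inter_eq_left.2 hsub, hC]
    exact ratHull_cone fun w hw => by
      obtain ⟨μ, -, h⟩ := hS w hw
      exact ⟨μ, h⟩
  · rw [hC]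
    exact finite_faces S

end Pool.Agent.Results.MP_39bf0e_ag.ToroidalCovers
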